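import Pool.Agent.H9.Good

set_option autoImplicit false

namespace Pool.Agent.Results.MP_be1d92_co.Unbounded

open Pool.Agent.H9.Good

theorem result (N : ℕ) : ∃ (P : Type) (_ : PartialOrder P), ChainComplete P ∧
    (∀ S : Set P, IsAntichain (· ≤ ·) S → S.Finite) ∧
      ∀ n ≤ N, ∀ A : ℕ → Set P, A 0 = Set.univ → (∀ k < n, IsGood (A k) (A (k + 1))) →
        (A n).Infinite :=
  ⟨Pt (N + 1), inferInstance, cc, anti, main N⟩

end Pool.Agent.Results.MP_be1d92_co.Unbounded
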